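import Mathlib
import Pool.Agent.Helper568.Elastic5

/-!
A nonseparable `1`-elastic Banach space which is not universal for its density character.
-/

namespace Pool.Agent.Results.MP_9b3874_an.ElasticNotUniversal

/-- The density character of a topological space: the least cardinality of a dense subset. -/
noncomputable def dens (X : Type) [TopologicalSpace X] : Cardinal.{0} :=
  sInf {c : Cardinal.{0} | ∃ s : Set X, Dense s ∧ Cardinal.mk s = c}

/-- `X` is `K`-elastic: for every norm `p` on `X` equivalent to the given one, `(X, p)` is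
`K`-isomorphic to a subspace of `X`, i.e. there is a linear `L` with
`a * p x ≤ ‖L x‖ ≤ b * p x` for all `x`, where `0 < a` and `b / a ≤ K`. -/
def IsElastic (𝕜 X : Type) [RCLike 𝕜] [NormedAddCommGroup X] [NormedSpace 𝕜 X] (K : ℝ) : Prop :=
  ∀ p : Seminorm 𝕜 X, (∃ a : ℝ, 0 < a ∧ ∀ x, a * ‖x‖ ≤ p x) → (∃ b : ℝ, ∀ x, p x ≤ b * ‖x‖) →
    ∃ (L : X →ₗ[𝕜] X) (a b : ℝ), 0 < a ∧ 0 < b ∧ b ≤ K * a ∧
      ∀ x, a * p x ≤ ‖L x‖ ∧ ‖L x‖ ≤ b * p x

/-- `Y` embeds isomorphically into `X`. -/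
def EmbedsInto (𝕜 Y X : Type) [RCLike 𝕜] [NormedAddCommGroup Y] [NormedSpace 𝕜 Y]
    [NormedAddCommGroup X] [NormedSpace 𝕜 X] : Prop :=
  ∃ L : Y →L[𝕜] X, ∃ c : ℝ, 0 < c ∧ ∀ y, c * ‖y‖ ≤ ‖L y‖

/-- Over `ℝ` and over `ℂ` there are a nonseparable `1`-elastic Banach space `X` and a Banach space
`Y` of the same density character which does not embed isomorphically into `X`. -/
theorem result (𝕜 : Type) [RCLike 𝕜] :
    ∃ (X : Type) (_ : NormedAddCommGroup X) (_ : NormedSpace 𝕜 X) (_ : CompleteSpace X),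
      Cardinal.aleph0 < dens X ∧ IsElastic 𝕜 X 1 ∧
      ∃ (Y : Type) (_ : NormedAddCommGroup Y) (_ : NormedSpace 𝕜 Y) (_ : CompleteSpace Y),
        dens Y = dens X ∧ ¬ EmbedsInto 𝕜 Y X := by
  obtain ⟨X, _, _, _, hd, hE, hN⟩ := Pool.Agent.Helper568.Elastic.main 𝕜
  refine ⟨X, inferInstance, inferInstance, inferInstance, ?_, ?_, ?_⟩
  · exact lt_of_lt_of_le Cardinal.aleph0_lt_continuum hd
  · rintro p - hp
    obtain ⟨L, hL⟩ := hE p hp
    exact ⟨L.toLinearMap, 1, 1, one_pos, one_pos, by norm_num, fun x =>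
      ⟨by rw [one_mul]; exact (hL x).ge, by rw [one_mul]; exact (hL x).le⟩⟩
  · have hc : Cardinal.continuum ≤ Cardinal.mk (Quotient.out (dens X)) := by
      rw [Cardinal.mk_out]
      exact hd
    refine ⟨Pool.Agent.Helper568.Elastic.L1 𝕜 (Quotient.out (dens X)), inferInstance,
      inferInstance, inferInstance, ?_, ?_⟩
    · exact (Pool.Agent.Helper568.Elastic.dens_l1 hc).trans (Cardinal.mk_out _)
    · exact hN _ hc

end Pool.Agent.Results.MP_9b3874_an.ElasticNotUniversal
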